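import Pool.Agent.helper4.UP.CFin

set_option autoImplicit false

open Finset Filter Topology
open Equiv (Perm)
open Pool.Agent.helper4.UP

namespace Pool.Agent.Results.MP_753cb1_lc.PastLift

/-- Let `U` be a non-principal ultrafilter on `ℕ` and `φ` a nontrivial endomorphism of the metric ultraproduct
`GU U` of the symmetric groups.  Suppose that there are sets `A n` of at least `a n` points (`a > 0`, for `U`-most `n`),
nonempty sets `S n x` of permutations depending on the past `x l`, `l < n`, for `U`-most `n` supported in `A n` and with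
at least `exp (-o(n)) |A n|!` elements, and maps `f n` depending only on the coordinates up to `n` such that `φ` maps the
class of `σ` to the class of `n ↦ f n σ` whenever `σ n ∈ S n σ` for all `n`.  Then `φ` is inner. -/
theorem result (U : Ultrafilter ℕ) (hU : ∀ k : ℕ, ({k} : Set ℕ) ∉ U)
    (φ : GU (U : Filter ℕ) →* GU (U : Filter ℕ)) (hφ : ∃ x, φ x ≠ 1)
    (a : ℝ) (ha : 0 < a) (A : ∀ n : ℕ, Finset (Fin n))
    (hA : ∀ᶠ n : ℕ in (U : Filter ℕ), a * n ≤ ((A n).card : ℝ))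
    (S : ∀ n : ℕ, (∀ l : ℕ, Perm (Fin l)) → Set (Perm (Fin n)))
    (hS1 : ∀ (n : ℕ) (x y : ∀ l : ℕ, Perm (Fin l)), (∀ l, l < n → x l = y l) → S n x = S n y)
    (hS2 : ∀ (n : ℕ) (x : ∀ l : ℕ, Perm (Fin l)), (S n x).Nonempty)
    (hS3 : ∀ᶠ n : ℕ in (U : Filter ℕ), ∀ x, ∀ σ ∈ S n x, ∀ i, i ∉ A n → σ i = i)
    (hS4 : ∀ ε : ℝ, 0 < ε → ∀ᶠ n : ℕ in (U : Filter ℕ), ∀ x,
      Real.exp (-(ε * n)) * (Nat.factorial (A n).card : ℝ) ≤ ((S n x).ncard : ℝ))
    (f : ∀ n : ℕ, (∀ l : ℕ, Perm (Fin l)) → Perm (Fin n))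
    (hf1 : ∀ (n : ℕ) (x y : ∀ l : ℕ, Perm (Fin l)), (∀ l, l ≤ n → x l = y l) → f n x = f n y)
    (hf2 : ∀ σ : ∀ n : ℕ, Perm (Fin n), (∀ n, σ n ∈ S n σ) →
      φ (cl (U : Filter ℕ) σ) = cl (U : Filter ℕ) (fun n => f n σ)) :
    ∃ g : GU (U : Filter ℕ), ∀ x, φ x = g * x * g⁻¹ := by
  have hU' : (U : Filter ℕ) ≤ atTop := by
    rw [← Nat.cofinite_eq_atTop]
    rcases U.le_cofinite_or_eq_pure with h | ⟨k, hk⟩
    · exact h
    · exfalso
      apply hU k
      rw [hk]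
      exact Set.mem_singleton k
  exact main2 U hU' φ hφ a ha A hA S hS1 hS2
    (hS3.mono fun n hn x σ hσ i hi => hn x σ hσ i hi) hS4 f hf1 hf2

end Pool.Agent.Results.MP_753cb1_lc.PastLift
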