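import Pool.Agent.helper69.MT.Main
import Pool.Agent.helper69.MT.Thin

set_option autoImplicit false

/-!
# Measurable lifts of endomorphisms of metric ultraproducts of symmetric groups
-/

open Pool.Agent.helper4.UP Pool.Agent.helper69.MT Pool.Agent.helper69.MQ

/-- Let `U` be a thin ultrafilter and `φ` a nontrivial endomorphism of the metric ultraproduct of
the groups `Sym(n)` along `U`.  If on a non-meagre set with the property of Baire `φ` is induced by
a Baire measurable map, or on a set of positive Haar measure by a Haar measurable map, then `φ` is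
the conjugation by an element of the ultraproduct; and conversely. -/
theorem Pool.Agent.Results.MP_753cb1_lc.ThinMeasurable.result :
    ∀ U : Ultrafilter ℕ, (∀ n : ℕ, ({n} : Set ℕ) ∉ U) → Thin U →
      ∀ φ : GU (U : Filter ℕ) →* GU (U : Filter ℕ), (∃ x, φ x ≠ 1) →
        ((∃ g : GU (U : Filter ℕ), ∀ x, φ x = g * x * g⁻¹) ↔ BaireOn φ) ∧
          ((∃ g : GU (U : Filter ℕ), ∀ x, φ x = g * x * g⁻¹) ↔ HaarOn φ) :=
  fun U hU hq φ hφ => main5 U hU hq φ hφ
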